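import Mathlib

/-! Operations on the real line which commute with all nondecreasing maps. -/

set_option autoImplicit false

namespace Pool.Agent.V11160.OP

open Finset

variable {k : ℕ}

/-- `f` commutes with all nondecreasing maps of the real line (the operations built from `min` and
`max` are of this kind). -/
def OrderOp (f : (Fin k → ℝ) → ℝ) : Prop :=
  ∀ φ : ℝ → ℝ, Monotone φ → ∀ x : Fin k → ℝ, f (fun l => φ (x l)) = φ (f x)

/-- the Boolean shadow -/
def beta (f : (Fin k → ℝ) → ℝ) (S : Finset (Fin k)) : Prop :=
  f (fun l => if l ∈ S then 1 else 0) = 1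

theorem thr {f : (Fin k → ℝ) → ℝ} (hf : OrderOp f) (x : Fin k → ℝ) (t : ℝ) :
    t ≤ f x ↔ beta f (univ.filter fun l => t ≤ x l) := by
  have h := hf (fun u => if t ≤ u then 1 else 0) (by
    intro a b hab
    show (if t ≤ a then (1 : ℝ) else 0) ≤ if t ≤ b then 1 else 0
    split_ifs with h1 h2
    · exact le_rfl
    · exact absurd (h1.trans hab) h2
    · exact zero_le_one
    · exact le_rfl) x
  unfold beta
  simp only [mem_filter, mem_univ, true_and]
  rw [h]
  split_ifs with h1
  · simp [h1]
  · simp [h1]

theorem beta_mono {f : (Fin k → ℝ) → ℝ} (hf : OrderOp f) {S T : Finset (Fin k)} (h : S ⊆ T)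
    (hS : beta f S) : beta f T := by
  classical
  set x : Fin k → ℝ := fun l => (if l ∈ S then 1 else 0) + (if l ∈ T then 1 else 0) with hx
  have h2 : (univ.filter fun l => (2 : ℝ) ≤ x l) = S := by
    ext l
    simp only [mem_filter, mem_univ, true_and, hx]
    by_cases h1 : l ∈ S
    · simp [h1, h h1]; norm_num
    · by_cases h3 : l ∈ T <;> simp [h1, h3]
  have h1 : (univ.filter fun l => (1 : ℝ) ≤ x l) = T := by
    ext l
    simp only [mem_filter, mem_univ, true_and, hx]
    by_cases h1 : l ∈ S
    · simp [h1, h h1]
    · by_cases h3 : l ∈ T <;> simp [h1, h3]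
  have h3 := (thr hf x 2).2 (by rwa [h2])
  have h4 := (thr hf x 1).1 (by linarith)
  rwa [h1] at h4

theorem beta_empty {f : (Fin k → ℝ) → ℝ} (hf : OrderOp f) : ¬ beta f ∅ := by
  intro h
  unfold beta at h
  have h1 := hf (fun _ => 0) (fun _ _ _ => le_rfl) (fun l => if l ∈ (∅ : Finset (Fin k)) then 1 else 0)
  simp only [notMem_empty, if_false] at h h1
  rw [h] at h1
  exact one_ne_zero h1

theorem beta_univ {f : (Fin k → ℝ) → ℝ} (hf : OrderOp f) : beta f univ := by
  unfold beta
  have h1 := hf (fun _ => 1) (fun _ _ _ => le_rfl) (fun _ => 1)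
  simpa using h1

theorem proj_of {f : (Fin k → ℝ) → ℝ} (hf : OrderOp f) (j : Fin k)
    (h : ∀ S : Finset (Fin k), beta f S ↔ j ∈ S) (x : Fin k → ℝ) : f x = x j := by
  apply eq_of_forall_le_iff
  intro t
  rw [thr hf, h]
  simp

/-- the value is one of the arguments -/
theorem mem_range {f : (Fin k → ℝ) → ℝ} (hf : OrderOp f) (x : Fin k → ℝ) : ∃ l, f x = x l := by
  classical
  set S := univ.filter fun l => f x ≤ x l with hS
  have hβ : beta f S := (thr hf x (f x)).1 le_rfl
  have hne : S.Nonempty := by
    rw [nonempty_iff_ne_empty]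
    intro h
    rw [h] at hβ
    exact beta_empty hf hβ
  obtain ⟨l, hl, hmin⟩ := S.exists_min_image x hne
  refine ⟨l, ?_⟩
  have h1 : f x ≤ x l := by simpa [hS] using hl
  have h2 : (univ.filter fun m => x l ≤ x m) = S := by
    ext m
    simp only [mem_filter, mem_univ, true_and, hS]
    constructor
    · intro h; exact h1.trans h
    · intro h; exact hmin m (by simpa [hS] using h)
  exact le_antisymm h1 ((thr hf x (x l)).2 (by rwa [h2]))

/-- the median of three numbers -/
noncomputable def med (a b c : ℝ) : ℝ := max (min a b) (max (min a c) (min b c))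

theorem le_med (t a b c : ℝ) : t ≤ med a b c ↔
    (t ≤ a ∧ t ≤ b) ∨ (t ≤ a ∧ t ≤ c) ∨ (t ≤ b ∧ t ≤ c) := by
  unfold med
  simp only [le_max_iff, le_min_iff]

/-- A nontrivial order operation yields the minimum, the maximum or the median by identification of
arguments. -/
theorem minors {f : (Fin k → ℝ) → ℝ} (hf : OrderOp f) (hp : ¬ ∃ j, ∀ x, f x = x j) :
    (∃ S : Finset (Fin k), ∀ a c : ℝ, f (fun l => if l ∈ S then a else c) = min a c) ∨
    (∃ S : Finset (Fin k), ∀ a c : ℝ, f (fun l => if l ∈ S then a else c) = max a c) ∨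
    (∃ (j : Fin k) (S : Finset (Fin k)), ∀ a b c : ℝ,
      f (fun l => if l = j then a else if l ∈ S then b else c) = med a b c) := by
  classical
  have key : ∀ (S : Finset (Fin k)) (a c t : ℝ),
      t ≤ f (fun l => if l ∈ S then a else c) ↔
        (t ≤ a ∧ t ≤ c) ∨ (t ≤ a ∧ beta f S) ∨ (t ≤ c ∧ beta f Sᶜ) := by
    intro S a c t
    rw [thr hf]
    by_cases ha : t ≤ a <;> by_cases hc : t ≤ c
    · have : (univ.filter fun l => t ≤ if l ∈ S then a else c) = univ := by
        ext l; simp only [mem_filter, mem_univ, true_and, iff_true]; split_ifs <;> assumption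
      rw [this]; simp [ha, hc, beta_univ hf]
    · have : (univ.filter fun l => t ≤ if l ∈ S then a else c) = S := by
        ext l; simp only [mem_filter, mem_univ, true_and]; split_ifs with h <;> simp [ha, hc, h]
      rw [this]; simp [ha, hc]
    · have : (univ.filter fun l => t ≤ if l ∈ S then a else c) = Sᶜ := by
        ext l; simp only [mem_filter, mem_univ, true_and, mem_compl]
        split_ifs with h <;> simp [ha, hc, h]
      rw [this]; simp [ha, hc]
    · have : (univ.filter fun l => t ≤ if l ∈ S then a else c) = ∅ := by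
        ext l; simp only [mem_filter, mem_univ, true_and, notMem_empty, iff_false]
        split_ifs <;> assumption
      rw [this]; simp [ha, hc, beta_empty hf]
  by_cases h1 : ∃ S : Finset (Fin k), ¬ beta f S ∧ ¬ beta f Sᶜ
  · obtain ⟨S, hS, hS'⟩ := h1
    refine Or.inl ⟨S, fun a c => ?_⟩
    apply eq_of_forall_le_iff
    intro t
    rw [key]
    simp [hS, hS', le_min_iff]
  by_cases h2 : ∃ S : Finset (Fin k), beta f S ∧ beta f Sᶜ
  · obtain ⟨S, hS, hS'⟩ := h2
    refine Or.inr (Or.inl ⟨S, fun a c => ?_⟩)
    apply eq_of_forall_le_iff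
    intro t
    rw [key]
    simp only [hS, hS', and_true, le_max_iff]
    tauto
  push Not at h1 h2
  have hdual : ∀ S : Finset (Fin k), beta f Sᶜ ↔ ¬ beta f S := fun S =>
    ⟨fun h h' => h2 S h' h, fun h => h1 S h⟩
  right; right
  obtain ⟨S, hS⟩ : ∃ S, Minimal (fun S : Finset (Fin k) => beta f S) S := by
    obtain ⟨S, hSm⟩ := (univ.filter fun S : Finset (Fin k) => beta f S).exists_minimal
      ⟨univ, by simp [beta_univ hf]⟩
    refine ⟨S, ?_, ?_⟩
    · simpa using hSm.1
    · intro T hT hle
      exact hSm.2 (by simpa using hT) hle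
  have hmin : ∀ T, T ⊂ S → ¬ beta f T := by
    intro T hT h
    exact hT.2 (hS.2 h hT.1)
  have hne : S.Nonempty := by
    rw [nonempty_iff_ne_empty]
    intro h
    rw [h] at hS
    exact beta_empty hf hS.1
  obtain ⟨j, hj⟩ := hne
  have hjS : ({j} : Finset (Fin k)) ⊂ S := by
    refine ⟨by simpa using hj, fun hle => ?_⟩
    apply hp
    refine ⟨j, proj_of hf j fun T => ?_⟩
    have hSj : S = {j} := Subset.antisymm hle (by simpa using hj)
    have hβj : beta f {j} := hSj ▸ hS.1
    constructor
    · intro hT
      by_contra hjT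
      have h5 : beta f Tᶜ := beta_mono hf (by simpa using hjT) hβj
      exact (hdual T).1 h5 hT
    · intro hjT
      exact beta_mono hf (by simpa using hjT) hβj
  have hA : ¬ beta f {j} := hmin _ hjS
  have hB : ¬ beta f (S.erase j) := hmin _ (erase_ssubset hj)
  have hC : ¬ beta f Sᶜ := fun h => (hdual S).1 h hS.1
  have hAB : beta f S := hS.1
  have hAC : beta f (S.erase j)ᶜ := (hdual _).2 hB
  have hBC : beta f ({j} : Finset (Fin k))ᶜ := (hdual _).2 hA
  refine ⟨j, S, fun a b c => ?_⟩
  apply eq_of_forall_le_iff
  intro t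
  rw [thr hf, le_med]
  by_cases ha : t ≤ a <;> by_cases hb : t ≤ b <;> by_cases hc : t ≤ c
  · have : (univ.filter fun l => t ≤ if l = j then a else if l ∈ S then b else c) = univ := by
      ext l; simp only [mem_filter, mem_univ, true_and, iff_true]; split_ifs <;> assumption
    rw [this]; simp [ha, hb, beta_univ hf]
  · have : (univ.filter fun l => t ≤ if l = j then a else if l ∈ S then b else c) = S := by
      ext l; simp only [mem_filter, mem_univ, true_and]
      split_ifs with h h'
      · subst h; simp [ha, hj]
      · simp [hb, h']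
      · simp [hc, h']
    rw [this]; simp [ha, hb, hAB]
  · have : (univ.filter fun l => t ≤ if l = j then a else if l ∈ S then b else c)
        = (S.erase j)ᶜ := by
      ext l; simp only [mem_filter, mem_univ, true_and, mem_compl, mem_erase]
      split_ifs with h h'
      · subst h; simp [ha]
      · simp [hb, h', h]
      · simp [hc, h']
    rw [this]; exact iff_of_true hAC (Or.inr (Or.inl ⟨ha, hc⟩))
  · have : (univ.filter fun l => t ≤ if l = j then a else if l ∈ S then b else c) = {j} := by
      ext l; simp only [mem_filter, mem_univ, true_and, mem_singleton]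
      split_ifs with h h' <;> simp [ha, hb, hc, h]
    rw [this]; simp [hb, hc, hA]
  · have : (univ.filter fun l => t ≤ if l = j then a else if l ∈ S then b else c)
        = ({j} : Finset (Fin k))ᶜ := by
      ext l; simp only [mem_filter, mem_univ, true_and, mem_compl, mem_singleton]
      split_ifs with h h' <;> simp [ha, hb, hc, h]
    rw [this]; simp [hb, hc, hBC]
  · have : (univ.filter fun l => t ≤ if l = j then a else if l ∈ S then b else c)
        = S.erase j := by
      ext l; simp only [mem_filter, mem_univ, true_and, mem_erase]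
      split_ifs with h h'
      · simp [ha, h]
      · simp [hb, h, h']
      · simp [hc, h']
    rw [this]; simp [ha, hc, hB]
  · have : (univ.filter fun l => t ≤ if l = j then a else if l ∈ S then b else c) = Sᶜ := by
      ext l; simp only [mem_filter, mem_univ, true_and, mem_compl]
      split_ifs with h h'
      · subst h; simp [ha, hj]
      · simp [hb, h']
      · simp [hc, h']
    rw [this]; simp [ha, hb, hC]
  · have : (univ.filter fun l => t ≤ if l = j then a else if l ∈ S then b else c) = ∅ := by
      ext l; simp only [mem_filter, mem_univ, true_and, notMem_empty, iff_false]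
      split_ifs <;> assumption
    rw [this]; simp [ha, hb, beta_empty hf]

end Pool.Agent.V11160.OP
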